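import Pool.Agent.L7h4.SF.Stm

/-!
# Project SF, part ACT
-/

set_option autoImplicit false

namespace Pool.Agent.L7h84.SF

open MvPolynomial Pool.Helper89.Rev Pool.Agent.L7h57.RV Matrix

lemma eval_aeval' {n : ℕ} (f : Fin n → MvPolynomial (Fin n) ℂ) (y : Fin n → ℂ)
    (p : MvPolynomial (Fin n) ℂ) :
    eval y (aeval f p) = eval (fun k => eval y (f k)) p := by
  induction p using MvPolynomial.induction_on with
  | C a => simp
  | add p q hp hq => rw [map_add, map_add, map_add, hp, hq]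
  | mul_X p i hp => rw [map_mul, map_mul, map_mul, hp, aeval_X, eval_X]

lemma eval_lin {n : ℕ} (g : Matrix (Fin n) (Fin n) ℂ) (y : Fin n → ℂ) (k : Fin n) :
    eval y (lin g k) = (g *ᵥ y) k := by
  unfold lin
  simp [map_sum, mulVec, dotProduct]

lemma eval_lfE {n : ℕ} (c : Fin n → ℂ) (y : Fin n → ℂ) (k : Fin n) :
    eval y (Pool.Agent.L7h4.SF.lfE c k) = (c ⬝ᵥ y) * y k := by
  unfold Pool.Agent.L7h4.SF.lfE
  simp [map_sum, dotProduct]

theorem s_ACT : Pool.Agent.L7h4.SF.S_ACT := by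
  intro n g g' c h
  funext i
  apply MvPolynomial.funext
  intro y
  unfold act
  simp only [map_sum, map_mul, eval_C, eval_aeval', eval_lin, eval_lfE]
  have e1 : (fun k => (g' *ᵥ y) k) = g' *ᵥ y := rfl
  rw [e1, ← dotProduct_mulVec]
  have e2 : ∑ x, g i x * (c ⬝ᵥ g' *ᵥ y * (g' *ᵥ y) x) = (c ⬝ᵥ g' *ᵥ y) * (g *ᵥ (g' *ᵥ y)) i := by
    simp only [mulVec, dotProduct, Finset.mul_sum]
    apply Finset.sum_congr rfl
    intro x _
    ring_nf
  rw [e2, mulVec_mulVec, h, one_mulVec]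

end Pool.Agent.L7h84.SF
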